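import Mathlib
import Pool.Agent.H49.Ent

/-!
# Gluing crossing pairs of lines: the space for the three slope inequality

A finite law `p` on `Ω` with two rational coordinates `f, g` is viewed as a random line whose
position at time `t` is `f + t g`.  We glue two lines over their common position at time `0`
(law `q`), and then glue copies of the pairs over the pair of slices
`(f + g of the first line, f - g of the second line)`.
-/

namespace Pool.Agent.H38.SD

open Finset Real Pool.Agent.H49.Ent
open scoped BigOperators

section general

variable {Ω : Type*} [Fintype Ω]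

theorem H_equiv {p : Ω → ℝ} (e : Ω ≃ Ω) (he : ∀ w, p (e w) = p w) {S : Type*} (X : Ω → S) :
    H p (fun w => X (e w)) = H p X := by
  classical
  have hlaw : ∀ s, law p (fun w => X (e w)) s = law p X s := by
    intro s
    unfold law
    rw [← Equiv.sum_comp e (fun w => if X w = s then p w else 0)]
    refine Finset.sum_congr rfl (fun w _ => ?_)
    simp only [he]
  unfold H
  congr 1
  rw [← Equiv.sum_comp e (fun w => p w * Real.log (law p X (X w)))]
  refine Finset.sum_congr rfl (fun w _ => ?_)
  rw [he, hlaw]

theorem H_eq_on {p : Ω → ℝ} (hp : ∀ w, 0 ≤ p w) {S : Type*} {X Y : Ω → S}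
    (h : ∀ w, 0 < p w → X w = Y w) : H p X = H p Y := by
  refine H_congr hp ?_ ?_
  · intro w w' hw hw' e
    rw [h w hw, h w' hw', e]
  · intro w w' hw hw' e
    rw [← h w hw, ← h w' hw', e]

end general

end Pool.Agent.H38.SD
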