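import Mathlib
import Pool.Agent.H49.Ent

/-!
# The certificate for the three slope inequality

Abstract form: a finite law `r` with five rational variables `x y p1 p2 p3`, where each of the six
differences `x - p_j`, `p_j - y` determines its two terms, and where the law is invariant under
permutations of `p1 p2 p3`.
-/

namespace Pool.Agent.H38.SD

open Finset Real Pool.Agent.H49.Ent
open scoped BigOperators

set_option maxHeartbeats 4000000 in
theorem cert {W : Type} [Fintype W] {r : W → ℝ} (hr : ∀ w, 0 ≤ r w) (h1 : ∑ w, r w = 1)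
    (x y p1 p2 p3 : W → ℚ)
    (cA1 : ∀ w w', 0 < r w → 0 < r w' → x w - p1 w = x w' - p1 w' →
      x w = x w' ∧ p1 w = p1 w')
    (cA2 : ∀ w w', 0 < r w → 0 < r w' → x w - p2 w = x w' - p2 w' →
      x w = x w' ∧ p2 w = p2 w')
    (cA3 : ∀ w w', 0 < r w → 0 < r w' → x w - p3 w = x w' - p3 w' →
      x w = x w' ∧ p3 w = p3 w')
    (_cB1 : ∀ w w', 0 < r w → 0 < r w' → p1 w - y w = p1 w' - y w' →
      y w = y w' ∧ p1 w = p1 w')
    (cB2 : ∀ w w', 0 < r w → 0 < r w' → p2 w - y w = p2 w' - y w' →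
      y w = y w' ∧ p2 w = p2 w')
    (_cB3 : ∀ w w', 0 < r w → 0 < r w' → p3 w - y w = p3 w' - y w' →
      y w = y w' ∧ p3 w = p3 w')
    (s12 : ∀ {S : Type} (F : ℚ → ℚ → ℚ → ℚ → ℚ → S),
      H r (fun w => F (x w) (y w) (p2 w) (p1 w) (p3 w))
        = H r (fun w => F (x w) (y w) (p1 w) (p2 w) (p3 w)))
    (s23 : ∀ {S : Type} (F : ℚ → ℚ → ℚ → ℚ → ℚ → S),
      H r (fun w => F (x w) (y w) (p1 w) (p3 w) (p2 w))
        = H r (fun w => F (x w) (y w) (p1 w) (p2 w) (p3 w)))
    (α s₀ s₁ s₂ : ℝ)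
    (E1 : H r (fun w => (x w, y w, p1 w)) = 2 * α - s₀)
    (E2 : H r (fun w => (x w, y w, p1 w, p2 w)) = 2 * H r (fun w => (x w, y w, p1 w)) - H r (fun w => (x w, y w)))
    (E3 : H r (fun w => (x w, y w, p1 w, p2 w, p3 w)) = 3 * H r (fun w => (x w, y w, p1 w)) - 2 * H r (fun w => (x w, y w)))
    (E4 : H r (fun w => (2 * p1 w - x w, 2 * p1 w - y w)) = H r (fun w => (x w, y w)))
    (E5 : H r (fun w => (x w, p1 w)) = α) (E6 : H r (fun w => (y w, p1 w)) = α)
    (S1 : H r (fun w => x w) = s₁) (S2 : H r (fun w => 2 * p1 w - y w) = s₁)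
    (S3 : H r (fun w => y w) = s₂) (S4 : H r (fun w => 2 * p1 w - x w) = s₂) (S5 : H r (fun w => p1 w) = s₀) :
    α ≤ 9 / 14 * (s₁ + s₂) + 6 / 11 * s₀ := by
  have s123 : ∀ {S : Type} (F : ℚ → ℚ → ℚ → ℚ → ℚ → S),
      H r (fun w => F (x w) (y w) (p2 w) (p3 w) (p1 w))
        = H r (fun w => F (x w) (y w) (p1 w) (p2 w) (p3 w)) := by
    intro S F
    rw [← s23 F]
    exact s12 (fun x y a b c => F x y a c b)
  have s132 : ∀ {S : Type} (F : ℚ → ℚ → ℚ → ℚ → ℚ → S),
      H r (fun w => F (x w) (y w) (p3 w) (p1 w) (p2 w))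
        = H r (fun w => F (x w) (y w) (p1 w) (p2 w) (p3 w)) := by
    intro S F
    rw [← s12 F]
    exact s23 (fun x y a b c => F x y b a c)
  have s13 : ∀ {S : Type} (F : ℚ → ℚ → ℚ → ℚ → ℚ → S),
      H r (fun w => F (x w) (y w) (p3 w) (p2 w) (p1 w))
        = H r (fun w => F (x w) (y w) (p1 w) (p2 w) (p3 w)) := by
    intro S F
    rw [← s132 F]
    exact s12 (fun x y a b c => F x y c a b)
  have R1 : H r (fun w => (2 * p1 w - x w, y w))
      ≤ H r (fun w => 2 * p1 w - x w) + H r (fun w => y w) := by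
    refine subadd hr h1 ?_
    · intro w w' hw hw' h
      simp only [Prod.mk.injEq] at h
      obtain ⟨h1, k1⟩ := h
      simp only [Prod.mk.injEq]
      exact ⟨by linarith, by linarith⟩
  have R2 : H r (fun w => (2 * p1 w - y w, x w))
      ≤ H r (fun w => 2 * p1 w - y w) + H r (fun w => x w) := by
    refine subadd hr h1 ?_
    · intro w w' hw hw' h
      simp only [Prod.mk.injEq] at h
      obtain ⟨h1, k1⟩ := h
      simp only [Prod.mk.injEq]
      exact ⟨by linarith, by linarith⟩
  have R3 : H r (fun w => (2 * p1 w - x w, 2 * p1 w - y w))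
      ≤ H r (fun w => 2 * p1 w - x w) + H r (fun w => 2 * p1 w - y w) := by
    refine subadd hr h1 ?_
    · intro w w' hw hw' h
      simp only [Prod.mk.injEq] at h
      obtain ⟨h1, k1⟩ := h
      simp only [Prod.mk.injEq]
      exact ⟨by linarith, by linarith⟩
  have R4 : H r (fun w => (x w, y w, p1 w))
      ≤ H r (fun w => x w - y w) + H r (fun w => x w + y w - 2 * p1 w) := by
    refine subadd hr h1 ?_
    · intro w w' hw hw' h
      simp only [Prod.mk.injEq] at h
      obtain ⟨h1, k1⟩ := h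
      obtain ⟨c1, c2⟩ := cA1 w w' hw hw' (by linarith)
      simp only [Prod.mk.injEq]
      exact ⟨by linarith, by linarith, by linarith⟩
  have R5 : H r (fun w => (x w, y w, p1 w)) + H r (fun w => x w + y w - 2 * p1 w)
      ≤ H r (fun w => (2 * p1 w - x w, y w)) + H r (fun w => (2 * p1 w - y w, x w)) := by
    refine submod hr ?_ ?_ ?_
    · intro w w' hw hw' h
      simp only [Prod.mk.injEq] at h
      obtain ⟨h1, h2⟩ := h
      show _ = _
      linarith
    · intro w w' hw hw' h
      simp only [Prod.mk.injEq] at h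
      obtain ⟨h1, h2⟩ := h
      show _ = _
      linarith
    · intro w w' hw hw' h
      simp only [Prod.mk.injEq] at h
      obtain ⟨⟨h1, h2⟩, ⟨k1, k2⟩⟩ := h
      simp only [Prod.mk.injEq]
      exact ⟨by linarith, by linarith, by linarith⟩
  have R6 : H r (fun w => (2 * p1 w - x w, p2 w))
      ≤ H r (fun w => 2 * p1 w - x w) + H r (fun w => p2 w) := by
    refine subadd hr h1 ?_
    · intro w w' hw hw' h
      simp only [Prod.mk.injEq] at h
      obtain ⟨h1, k1⟩ := h
      simp only [Prod.mk.injEq]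
      exact ⟨by linarith, by linarith⟩
  have R7 : H r (fun w => (2 * p1 w - y w, p2 w))
      ≤ H r (fun w => 2 * p1 w - y w) + H r (fun w => p2 w) := by
    refine subadd hr h1 ?_
    · intro w w' hw hw' h
      simp only [Prod.mk.injEq] at h
      obtain ⟨h1, k1⟩ := h
      simp only [Prod.mk.injEq]
      exact ⟨by linarith, by linarith⟩
  have R8 : H r (fun w => (2 * p1 w - x w, x w + y w - 2 * p2 w))
      ≤ H r (fun w => 2 * p1 w - x w) + H r (fun w => x w + y w - 2 * p2 w) := by
    refine subadd hr h1 ?_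
    · intro w w' hw hw' h
      simp only [Prod.mk.injEq] at h
      obtain ⟨h1, k1⟩ := h
      simp only [Prod.mk.injEq]
      exact ⟨by linarith, by linarith⟩
  have R9 : H r (fun w => (2 * p1 w - y w, x w + y w - 2 * p2 w))
      ≤ H r (fun w => 2 * p1 w - y w) + H r (fun w => x w + y w - 2 * p2 w) := by
    refine subadd hr h1 ?_
    · intro w w' hw hw' h
      simp only [Prod.mk.injEq] at h
      obtain ⟨h1, k1⟩ := h
      simp only [Prod.mk.injEq]
      exact ⟨by linarith, by linarith⟩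
  have R10 : H r (fun w => (x w, p1 w, p2 w))
      ≤ H r (fun w => 2 * p1 w - x w) + H r (fun w => x w + 2 * p1 w - 2 * p2 w) := by
    refine subadd hr h1 ?_
    · intro w w' hw hw' h
      simp only [Prod.mk.injEq] at h
      obtain ⟨h1, k1⟩ := h
      obtain ⟨c1, c2⟩ := cA2 w w' hw hw' (by linarith)
      simp only [Prod.mk.injEq]
      exact ⟨by linarith, by linarith, by linarith⟩
  have R11 : H r (fun w => (y w, p1 w, p2 w))
      ≤ H r (fun w => 2 * p1 w - y w) + H r (fun w => y w + 2 * p1 w - 2 * p2 w) := by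
    refine subadd hr h1 ?_
    · intro w w' hw hw' h
      simp only [Prod.mk.injEq] at h
      obtain ⟨h1, k1⟩ := h
      obtain ⟨c1, c2⟩ := cB2 w w' hw hw' (by linarith)
      simp only [Prod.mk.injEq]
      exact ⟨by linarith, by linarith, by linarith⟩
  have R12 : H r (fun w => (2 * p1 w - x w, y w, 2 * p2 w - x w)) + H r (fun w => 2 * p1 w - x w)
      ≤ H r (fun w => (2 * p1 w - x w, y w)) + H r (fun w => (2 * p1 w - x w, 2 * p2 w - x w)) := by
    refine submod hr ?_ ?_ ?_
    · intro w w' hw hw' h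
      simp only [Prod.mk.injEq] at h
      obtain ⟨h1, h2⟩ := h
      show _ = _
      linarith
    · intro w w' hw hw' h
      simp only [Prod.mk.injEq] at h
      obtain ⟨h1, h2⟩ := h
      show _ = _
      linarith
    · intro w w' hw hw' h
      simp only [Prod.mk.injEq] at h
      obtain ⟨⟨h1, h2⟩, ⟨k1, k2⟩⟩ := h
      simp only [Prod.mk.injEq]
      exact ⟨by linarith, by linarith, by linarith⟩
  have R13 : H r (fun w => (2 * p1 w - y w, x w, 2 * p2 w - y w)) + H r (fun w => 2 * p1 w - y w)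
      ≤ H r (fun w => (2 * p1 w - y w, x w)) + H r (fun w => (2 * p1 w - y w, 2 * p2 w - y w)) := by
    refine submod hr ?_ ?_ ?_
    · intro w w' hw hw' h
      simp only [Prod.mk.injEq] at h
      obtain ⟨h1, h2⟩ := h
      show _ = _
      linarith
    · intro w w' hw hw' h
      simp only [Prod.mk.injEq] at h
      obtain ⟨h1, h2⟩ := h
      show _ = _
      linarith
    · intro w w' hw hw' h
      simp only [Prod.mk.injEq] at h
      obtain ⟨⟨h1, h2⟩, ⟨k1, k2⟩⟩ := h
      simp only [Prod.mk.injEq]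
      exact ⟨by linarith, by linarith, by linarith⟩
  have R14 : H r (fun w => (2 * p1 w - x w, 2 * p1 w - y w, 2 * p2 w - x w)) + H r (fun w => x w - y w)
      ≤ H r (fun w => (2 * p1 w - x w, 2 * p1 w - y w)) + H r (fun w => (2 * p2 w - x w, 2 * p2 w - y w)) := by
    refine submod hr ?_ ?_ ?_
    · intro w w' hw hw' h
      simp only [Prod.mk.injEq] at h
      obtain ⟨h1, h2⟩ := h
      show _ = _
      linarith
    · intro w w' hw hw' h
      simp only [Prod.mk.injEq] at h
      obtain ⟨h1, h2⟩ := h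
      show _ = _
      linarith
    · intro w w' hw hw' h
      simp only [Prod.mk.injEq] at h
      obtain ⟨⟨h1, h2⟩, ⟨k1, k2⟩⟩ := h
      simp only [Prod.mk.injEq]
      exact ⟨by linarith, by linarith, by linarith⟩
  have R15 : H r (fun w => (x w, p1 w, 2 * p2 w - y w)) + H r (fun w => y w + 2 * p1 w - 2 * p2 w)
      ≤ H r (fun w => (2 * p1 w - x w, x w + y w - 2 * p2 w)) + H r (fun w => (2 * p2 w - y w, p1 w)) := by
    refine submod hr ?_ ?_ ?_
    · intro w w' hw hw' h
      simp only [Prod.mk.injEq] at h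
      obtain ⟨h1, h2⟩ := h
      show _ = _
      linarith
    · intro w w' hw hw' h
      simp only [Prod.mk.injEq] at h
      obtain ⟨h1, h2⟩ := h
      show _ = _
      linarith
    · intro w w' hw hw' h
      simp only [Prod.mk.injEq] at h
      obtain ⟨⟨h1, h2⟩, ⟨k1, k2⟩⟩ := h
      simp only [Prod.mk.injEq]
      exact ⟨by linarith, by linarith, by linarith⟩
  have R16 : H r (fun w => (y w, p1 w, 2 * p2 w - x w)) + H r (fun w => x w + 2 * p1 w - 2 * p2 w)
      ≤ H r (fun w => (2 * p1 w - y w, x w + y w - 2 * p2 w)) + H r (fun w => (2 * p2 w - x w, p1 w)) := by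
    refine submod hr ?_ ?_ ?_
    · intro w w' hw hw' h
      simp only [Prod.mk.injEq] at h
      obtain ⟨h1, h2⟩ := h
      show _ = _
      linarith
    · intro w w' hw hw' h
      simp only [Prod.mk.injEq] at h
      obtain ⟨h1, h2⟩ := h
      show _ = _
      linarith
    · intro w w' hw hw' h
      simp only [Prod.mk.injEq] at h
      obtain ⟨⟨h1, h2⟩, ⟨k1, k2⟩⟩ := h
      simp only [Prod.mk.injEq]
      exact ⟨by linarith, by linarith, by linarith⟩
  have R17 : H r (fun w => (y w, p1 w, p2 w)) + H r (fun w => y w + 2 * p1 w - 2 * p2 w)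
      ≤ H r (fun w => (2 * p2 w - y w, p1 w)) + H r (fun w => (y w, y w + 2 * p1 w - 2 * p2 w)) := by
    refine submod hr ?_ ?_ ?_
    · intro w w' hw hw' h
      simp only [Prod.mk.injEq] at h
      obtain ⟨h1, h2⟩ := h
      show _ = _
      linarith
    · intro w w' hw hw' h
      simp only [Prod.mk.injEq] at h
      obtain ⟨h1, h2⟩ := h
      show _ = _
      linarith
    · intro w w' hw hw' h
      simp only [Prod.mk.injEq] at h
      obtain ⟨⟨h1, h2⟩, ⟨k1, k2⟩⟩ := h
      simp only [Prod.mk.injEq]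
      exact ⟨by linarith, by linarith, by linarith⟩
  have R18 : H r (fun w => (x w, p1 w, p2 w)) + H r (fun w => x w + 2 * p1 w - 2 * p2 w)
      ≤ H r (fun w => (2 * p2 w - x w, p1 w)) + H r (fun w => (x w, x w + 2 * p1 w - 2 * p2 w)) := by
    refine submod hr ?_ ?_ ?_
    · intro w w' hw hw' h
      simp only [Prod.mk.injEq] at h
      obtain ⟨h1, h2⟩ := h
      show _ = _
      linarith
    · intro w w' hw hw' h
      simp only [Prod.mk.injEq] at h
      obtain ⟨h1, h2⟩ := h
      show _ = _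
      linarith
    · intro w w' hw hw' h
      simp only [Prod.mk.injEq] at h
      obtain ⟨⟨h1, h2⟩, ⟨k1, k2⟩⟩ := h
      simp only [Prod.mk.injEq]
      exact ⟨by linarith, by linarith, by linarith⟩
  have R19 : H r (fun w => (x w, y w, p1 w, p2 w)) + H r (fun w => (x w, x w + 2 * p1 w - 2 * p2 w))
      ≤ H r (fun w => (x w, p1 w, p2 w)) + H r (fun w => (2 * p1 w - y w, x w, 2 * p2 w - y w)) := by
    refine submod hr ?_ ?_ ?_
    · intro w w' hw hw' h
      simp only [Prod.mk.injEq] at h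
      obtain ⟨h1, h2, h3⟩ := h
      simp only [Prod.mk.injEq]
      exact ⟨by linarith, by linarith⟩
    · intro w w' hw hw' h
      simp only [Prod.mk.injEq] at h
      obtain ⟨h1, h2, h3⟩ := h
      simp only [Prod.mk.injEq]
      exact ⟨by linarith, by linarith⟩
    · intro w w' hw hw' h
      simp only [Prod.mk.injEq] at h
      obtain ⟨⟨h1, h2, h3⟩, ⟨k1, k2, k3⟩⟩ := h
      simp only [Prod.mk.injEq]
      exact ⟨by linarith, by linarith, by linarith, by linarith⟩
  have R20 : H r (fun w => (x w, y w, p1 w, p2 w)) + H r (fun w => (y w, y w + 2 * p1 w - 2 * p2 w))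
      ≤ H r (fun w => (y w, p1 w, p2 w)) + H r (fun w => (2 * p1 w - x w, y w, 2 * p2 w - x w)) := by
    refine submod hr ?_ ?_ ?_
    · intro w w' hw hw' h
      simp only [Prod.mk.injEq] at h
      obtain ⟨h1, h2, h3⟩ := h
      simp only [Prod.mk.injEq]
      exact ⟨by linarith, by linarith⟩
    · intro w w' hw hw' h
      simp only [Prod.mk.injEq] at h
      obtain ⟨h1, h2, h3⟩ := h
      simp only [Prod.mk.injEq]
      exact ⟨by linarith, by linarith⟩
    · intro w w' hw hw' h
      simp only [Prod.mk.injEq] at h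
      obtain ⟨⟨h1, h2, h3⟩, ⟨k1, k2, k3⟩⟩ := h
      simp only [Prod.mk.injEq]
      exact ⟨by linarith, by linarith, by linarith, by linarith⟩
  have R21 : H r (fun w => (x w, p1 w, p2 w, p3 w)) + H r (fun w => (x w, p1 w))
      ≤ H r (fun w => (x w, p1 w, p2 w)) + H r (fun w => (x w, p1 w, p3 w)) := by
    refine submod hr ?_ ?_ ?_
    · intro w w' hw hw' h
      simp only [Prod.mk.injEq] at h
      obtain ⟨h1, h2, h3⟩ := h
      simp only [Prod.mk.injEq]
      exact ⟨by linarith, by linarith⟩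
    · intro w w' hw hw' h
      simp only [Prod.mk.injEq] at h
      obtain ⟨h1, h2, h3⟩ := h
      simp only [Prod.mk.injEq]
      exact ⟨by linarith, by linarith⟩
    · intro w w' hw hw' h
      simp only [Prod.mk.injEq] at h
      obtain ⟨⟨h1, h2, h3⟩, ⟨k1, k2, k3⟩⟩ := h
      simp only [Prod.mk.injEq]
      exact ⟨by linarith, by linarith, by linarith, by linarith⟩
  have R22 : H r (fun w => (y w, p1 w, p2 w, p3 w)) + H r (fun w => (y w, p1 w))
      ≤ H r (fun w => (y w, p1 w, p2 w)) + H r (fun w => (y w, p1 w, p3 w)) := by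
    refine submod hr ?_ ?_ ?_
    · intro w w' hw hw' h
      simp only [Prod.mk.injEq] at h
      obtain ⟨h1, h2, h3⟩ := h
      simp only [Prod.mk.injEq]
      exact ⟨by linarith, by linarith⟩
    · intro w w' hw hw' h
      simp only [Prod.mk.injEq] at h
      obtain ⟨h1, h2, h3⟩ := h
      simp only [Prod.mk.injEq]
      exact ⟨by linarith, by linarith⟩
    · intro w w' hw hw' h
      simp only [Prod.mk.injEq] at h
      obtain ⟨⟨h1, h2, h3⟩, ⟨k1, k2, k3⟩⟩ := h
      simp only [Prod.mk.injEq]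
      exact ⟨by linarith, by linarith, by linarith, by linarith⟩
  have R23 : H r (fun w => (x w, p1 w, p2 w, 2 * p3 w - y w)) + H r (fun w => (x w, p1 w))
      ≤ H r (fun w => (x w, p1 w, p2 w)) + H r (fun w => (x w, p1 w, 2 * p3 w - y w)) := by
    refine submod hr ?_ ?_ ?_
    · intro w w' hw hw' h
      simp only [Prod.mk.injEq] at h
      obtain ⟨h1, h2, h3⟩ := h
      simp only [Prod.mk.injEq]
      exact ⟨by linarith, by linarith⟩
    · intro w w' hw hw' h
      simp only [Prod.mk.injEq] at h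
      obtain ⟨h1, h2, h3⟩ := h
      simp only [Prod.mk.injEq]
      exact ⟨by linarith, by linarith⟩
    · intro w w' hw hw' h
      simp only [Prod.mk.injEq] at h
      obtain ⟨⟨h1, h2, h3⟩, ⟨k1, k2, k3⟩⟩ := h
      simp only [Prod.mk.injEq]
      exact ⟨by linarith, by linarith, by linarith, by linarith⟩
  have R24 : H r (fun w => (y w, p1 w, p2 w, 2 * p3 w - x w)) + H r (fun w => (y w, p1 w))
      ≤ H r (fun w => (y w, p1 w, p2 w)) + H r (fun w => (y w, p1 w, 2 * p3 w - x w)) := by
    refine submod hr ?_ ?_ ?_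
    · intro w w' hw hw' h
      simp only [Prod.mk.injEq] at h
      obtain ⟨h1, h2, h3⟩ := h
      simp only [Prod.mk.injEq]
      exact ⟨by linarith, by linarith⟩
    · intro w w' hw hw' h
      simp only [Prod.mk.injEq] at h
      obtain ⟨h1, h2, h3⟩ := h
      simp only [Prod.mk.injEq]
      exact ⟨by linarith, by linarith⟩
    · intro w w' hw hw' h
      simp only [Prod.mk.injEq] at h
      obtain ⟨⟨h1, h2, h3⟩, ⟨k1, k2, k3⟩⟩ := h
      simp only [Prod.mk.injEq]
      exact ⟨by linarith, by linarith, by linarith, by linarith⟩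
  have R25 : H r (fun w => (y w, p2 w, p3 w, 2 * p1 w - x w)) + H r (fun w => (2 * p1 w - x w, y w))
      ≤ H r (fun w => (y w, p2 w, 2 * p1 w - x w)) + H r (fun w => (y w, p3 w, 2 * p1 w - x w)) := by
    refine submod hr ?_ ?_ ?_
    · intro w w' hw hw' h
      simp only [Prod.mk.injEq] at h
      obtain ⟨h1, h2, h3⟩ := h
      simp only [Prod.mk.injEq]
      exact ⟨by linarith, by linarith⟩
    · intro w w' hw hw' h
      simp only [Prod.mk.injEq] at h
      obtain ⟨h1, h2, h3⟩ := h
      simp only [Prod.mk.injEq]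
      exact ⟨by linarith, by linarith⟩
    · intro w w' hw hw' h
      simp only [Prod.mk.injEq] at h
      obtain ⟨⟨h1, h2, h3⟩, ⟨k1, k2, k3⟩⟩ := h
      simp only [Prod.mk.injEq]
      exact ⟨by linarith, by linarith, by linarith, by linarith⟩
  have R26 : H r (fun w => (x w, p2 w, p3 w, 2 * p1 w - y w)) + H r (fun w => (2 * p1 w - y w, x w))
      ≤ H r (fun w => (x w, p2 w, 2 * p1 w - y w)) + H r (fun w => (x w, p3 w, 2 * p1 w - y w)) := by
    refine submod hr ?_ ?_ ?_
    · intro w w' hw hw' h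
      simp only [Prod.mk.injEq] at h
      obtain ⟨h1, h2, h3⟩ := h
      simp only [Prod.mk.injEq]
      exact ⟨by linarith, by linarith⟩
    · intro w w' hw hw' h
      simp only [Prod.mk.injEq] at h
      obtain ⟨h1, h2, h3⟩ := h
      simp only [Prod.mk.injEq]
      exact ⟨by linarith, by linarith⟩
    · intro w w' hw hw' h
      simp only [Prod.mk.injEq] at h
      obtain ⟨⟨h1, h2, h3⟩, ⟨k1, k2, k3⟩⟩ := h
      simp only [Prod.mk.injEq]
      exact ⟨by linarith, by linarith, by linarith, by linarith⟩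
  have R27 : H r (fun w => (2 * p1 w - x w, 2 * p1 w - y w, 2 * p2 w - x w, 2 * p3 w - x w)) + H r (fun w => (2 * p1 w - x w, 2 * p1 w - y w))
      ≤ H r (fun w => (2 * p1 w - x w, 2 * p1 w - y w, 2 * p2 w - x w)) + H r (fun w => (2 * p1 w - x w, 2 * p1 w - y w, 2 * p3 w - x w)) := by
    refine submod hr ?_ ?_ ?_
    · intro w w' hw hw' h
      simp only [Prod.mk.injEq] at h
      obtain ⟨h1, h2, h3⟩ := h
      simp only [Prod.mk.injEq]
      exact ⟨by linarith, by linarith⟩
    · intro w w' hw hw' h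
      simp only [Prod.mk.injEq] at h
      obtain ⟨h1, h2, h3⟩ := h
      simp only [Prod.mk.injEq]
      exact ⟨by linarith, by linarith⟩
    · intro w w' hw hw' h
      simp only [Prod.mk.injEq] at h
      obtain ⟨⟨h1, h2, h3⟩, ⟨k1, k2, k3⟩⟩ := h
      simp only [Prod.mk.injEq]
      exact ⟨by linarith, by linarith, by linarith, by linarith⟩
  have R28 : H r (fun w => (2 * p1 w - x w, y w, 2 * p2 w - x w, 2 * p3 w - x w)) + H r (fun w => (2 * p1 w - x w, 2 * p2 w - x w))
      ≤ H r (fun w => (2 * p1 w - x w, y w, 2 * p2 w - x w)) + H r (fun w => (2 * p1 w - x w, 2 * p2 w - x w, 2 * p3 w - x w)) := by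
    refine submod hr ?_ ?_ ?_
    · intro w w' hw hw' h
      simp only [Prod.mk.injEq] at h
      obtain ⟨h1, h2, h3⟩ := h
      simp only [Prod.mk.injEq]
      exact ⟨by linarith, by linarith⟩
    · intro w w' hw hw' h
      simp only [Prod.mk.injEq] at h
      obtain ⟨h1, h2, h3⟩ := h
      simp only [Prod.mk.injEq]
      exact ⟨by linarith, by linarith⟩
    · intro w w' hw hw' h
      simp only [Prod.mk.injEq] at h
      obtain ⟨⟨h1, h2, h3⟩, ⟨k1, k2, k3⟩⟩ := h
      simp only [Prod.mk.injEq]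
      exact ⟨by linarith, by linarith, by linarith, by linarith⟩
  have R29 : H r (fun w => (2 * p1 w - y w, x w, 2 * p2 w - y w, 2 * p3 w - y w)) + H r (fun w => (2 * p1 w - y w, 2 * p2 w - y w))
      ≤ H r (fun w => (2 * p1 w - y w, x w, 2 * p2 w - y w)) + H r (fun w => (2 * p1 w - y w, 2 * p2 w - y w, 2 * p3 w - y w)) := by
    refine submod hr ?_ ?_ ?_
    · intro w w' hw hw' h
      simp only [Prod.mk.injEq] at h
      obtain ⟨h1, h2, h3⟩ := h
      simp only [Prod.mk.injEq]
      exact ⟨by linarith, by linarith⟩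
    · intro w w' hw hw' h
      simp only [Prod.mk.injEq] at h
      obtain ⟨h1, h2, h3⟩ := h
      simp only [Prod.mk.injEq]
      exact ⟨by linarith, by linarith⟩
    · intro w w' hw hw' h
      simp only [Prod.mk.injEq] at h
      obtain ⟨⟨h1, h2, h3⟩, ⟨k1, k2, k3⟩⟩ := h
      simp only [Prod.mk.injEq]
      exact ⟨by linarith, by linarith, by linarith, by linarith⟩
  have R30 : H r (fun w => (x w, y w, p1 w, p2 w, p3 w)) + H r (fun w => (2 * p1 w - x w, 2 * p2 w - x w))
      ≤ H r (fun w => (2 * p1 w - x w, 2 * p1 w - y w, 2 * p2 w - x w)) + H r (fun w => (2 * p1 w - x w, 2 * p2 w - x w, x w + y w - 2 * p3 w)) := by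
    refine submod hr ?_ ?_ ?_
    · intro w w' hw hw' h
      simp only [Prod.mk.injEq] at h
      obtain ⟨h1, h2, h3⟩ := h
      simp only [Prod.mk.injEq]
      exact ⟨by linarith, by linarith⟩
    · intro w w' hw hw' h
      simp only [Prod.mk.injEq] at h
      obtain ⟨h1, h2, h3⟩ := h
      simp only [Prod.mk.injEq]
      exact ⟨by linarith, by linarith⟩
    · intro w w' hw hw' h
      simp only [Prod.mk.injEq] at h
      obtain ⟨⟨h1, h2, h3⟩, ⟨k1, k2, k3⟩⟩ := h
      obtain ⟨c1, c2⟩ := cA3 w w' hw hw' (by linarith)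
      simp only [Prod.mk.injEq]
      exact ⟨by linarith, by linarith, by linarith, by linarith, by linarith⟩
  have R31 : H r (fun w => (x w, y w, p1 w, p2 w, p3 w)) + H r (fun w => (2 * p1 w - y w, 2 * p2 w - y w))
      ≤ H r (fun w => (2 * p1 w - x w, 2 * p1 w - y w, 2 * p2 w - x w)) + H r (fun w => (2 * p1 w - y w, 2 * p2 w - y w, x w + y w - 2 * p3 w)) := by
    refine submod hr ?_ ?_ ?_
    · intro w w' hw hw' h
      simp only [Prod.mk.injEq] at h
      obtain ⟨h1, h2, h3⟩ := h
      simp only [Prod.mk.injEq]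
      exact ⟨by linarith, by linarith⟩
    · intro w w' hw hw' h
      simp only [Prod.mk.injEq] at h
      obtain ⟨h1, h2, h3⟩ := h
      simp only [Prod.mk.injEq]
      exact ⟨by linarith, by linarith⟩
    · intro w w' hw hw' h
      simp only [Prod.mk.injEq] at h
      obtain ⟨⟨h1, h2, h3⟩, ⟨k1, k2, k3⟩⟩ := h
      obtain ⟨c1, c2⟩ := cA3 w w' hw hw' (by linarith)
      simp only [Prod.mk.injEq]
      exact ⟨by linarith, by linarith, by linarith, by linarith, by linarith⟩
  have R32 : H r (fun w => (x w, y w, p1 w, p2 w, p3 w)) + H r (fun w => (2 * p1 w - x w, 2 * p2 w - x w, 2 * p3 w - x w))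
      ≤ H r (fun w => (x w, p1 w, p2 w, p3 w)) + H r (fun w => (2 * p1 w - x w, 2 * p1 w - y w, 2 * p2 w - x w, 2 * p3 w - x w)) := by
    refine submod hr ?_ ?_ ?_
    · intro w w' hw hw' h
      simp only [Prod.mk.injEq] at h
      obtain ⟨h1, h2, h3, h4⟩ := h
      simp only [Prod.mk.injEq]
      exact ⟨by linarith, by linarith, by linarith⟩
    · intro w w' hw hw' h
      simp only [Prod.mk.injEq] at h
      obtain ⟨h1, h2, h3, h4⟩ := h
      simp only [Prod.mk.injEq]
      exact ⟨by linarith, by linarith, by linarith⟩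
    · intro w w' hw hw' h
      simp only [Prod.mk.injEq] at h
      obtain ⟨⟨h1, h2, h3, h4⟩, ⟨k1, k2, k3, k4⟩⟩ := h
      simp only [Prod.mk.injEq]
      exact ⟨by linarith, by linarith, by linarith, by linarith, by linarith⟩
  have R33 : H r (fun w => (x w, y w, p1 w, p2 w, p3 w)) + H r (fun w => (2 * p1 w - y w, 2 * p2 w - y w, 2 * p3 w - y w))
      ≤ H r (fun w => (y w, p1 w, p2 w, p3 w)) + H r (fun w => (2 * p1 w - x w, 2 * p1 w - y w, 2 * p2 w - x w, 2 * p3 w - x w)) := by
    refine submod hr ?_ ?_ ?_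
    · intro w w' hw hw' h
      simp only [Prod.mk.injEq] at h
      obtain ⟨h1, h2, h3, h4⟩ := h
      simp only [Prod.mk.injEq]
      exact ⟨by linarith, by linarith, by linarith⟩
    · intro w w' hw hw' h
      simp only [Prod.mk.injEq] at h
      obtain ⟨h1, h2, h3, h4⟩ := h
      simp only [Prod.mk.injEq]
      exact ⟨by linarith, by linarith, by linarith⟩
    · intro w w' hw hw' h
      simp only [Prod.mk.injEq] at h
      obtain ⟨⟨h1, h2, h3, h4⟩, ⟨k1, k2, k3, k4⟩⟩ := h
      simp only [Prod.mk.injEq]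
      exact ⟨by linarith, by linarith, by linarith, by linarith, by linarith⟩
  have R34 : H r (fun w => (x w, y w, p1 w, p2 w, p3 w)) + H r (fun w => (2 * p1 w - x w, 2 * p2 w - x w, x w + y w - 2 * p3 w))
      ≤ H r (fun w => (x w, p1 w, p2 w, 2 * p3 w - y w)) + H r (fun w => (2 * p1 w - x w, y w, 2 * p2 w - x w, 2 * p3 w - x w)) := by
    refine submod hr ?_ ?_ ?_
    · intro w w' hw hw' h
      simp only [Prod.mk.injEq] at h
      obtain ⟨h1, h2, h3, h4⟩ := h
      simp only [Prod.mk.injEq]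
      exact ⟨by linarith, by linarith, by linarith⟩
    · intro w w' hw hw' h
      simp only [Prod.mk.injEq] at h
      obtain ⟨h1, h2, h3, h4⟩ := h
      simp only [Prod.mk.injEq]
      exact ⟨by linarith, by linarith, by linarith⟩
    · intro w w' hw hw' h
      simp only [Prod.mk.injEq] at h
      obtain ⟨⟨h1, h2, h3, h4⟩, ⟨k1, k2, k3, k4⟩⟩ := h
      simp only [Prod.mk.injEq]
      exact ⟨by linarith, by linarith, by linarith, by linarith, by linarith⟩
  have R35 : H r (fun w => (x w, y w, p1 w, p2 w, p3 w)) + H r (fun w => (2 * p1 w - y w, 2 * p2 w - y w, x w + y w - 2 * p3 w))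
      ≤ H r (fun w => (y w, p1 w, p2 w, 2 * p3 w - x w)) + H r (fun w => (2 * p1 w - y w, x w, 2 * p2 w - y w, 2 * p3 w - y w)) := by
    refine submod hr ?_ ?_ ?_
    · intro w w' hw hw' h
      simp only [Prod.mk.injEq] at h
      obtain ⟨h1, h2, h3, h4⟩ := h
      simp only [Prod.mk.injEq]
      exact ⟨by linarith, by linarith, by linarith⟩
    · intro w w' hw hw' h
      simp only [Prod.mk.injEq] at h
      obtain ⟨h1, h2, h3, h4⟩ := h
      simp only [Prod.mk.injEq]
      exact ⟨by linarith, by linarith, by linarith⟩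
    · intro w w' hw hw' h
      simp only [Prod.mk.injEq] at h
      obtain ⟨⟨h1, h2, h3, h4⟩, ⟨k1, k2, k3, k4⟩⟩ := h
      simp only [Prod.mk.injEq]
      exact ⟨by linarith, by linarith, by linarith, by linarith, by linarith⟩
  have t1 : H r (fun w => (2 * p2 w - x w, 2 * p2 w - y w))
      = H r (fun w => (2 * p1 w - x w, 2 * p1 w - y w)) :=
    s12 (fun x y p1 p2 p3 => (2 * p1 - x, 2 * p1 - y))
  have t2 : H r (fun w => p2 w)
      = H r (fun w => p1 w) :=
    s12 (fun x y p1 p2 p3 => p1)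
  have t3 : H r (fun w => x w + y w - 2 * p2 w)
      = H r (fun w => x w + y w - 2 * p1 w) :=
    s12 (fun x y p1 p2 p3 => x + y - 2 * p1)
  have t4 : H r (fun w => (2 * p2 w - x w, p1 w))
      = H r (fun w => (2 * p1 w - x w, p2 w)) :=
    s12 (fun x y p1 p2 p3 => (2 * p1 - x, p2))
  have t5 : H r (fun w => (2 * p2 w - y w, p1 w))
      = H r (fun w => (2 * p1 w - y w, p2 w)) :=
    s12 (fun x y p1 p2 p3 => (2 * p1 - y, p2))
  have t6 : H r (fun w => (x w, p1 w, p3 w))
      = H r (fun w => (x w, p1 w, p2 w)) :=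
    s23 (fun x y p1 p2 p3 => (x, p1, p2))
  have t7 : H r (fun w => (y w, p1 w, p3 w))
      = H r (fun w => (y w, p1 w, p2 w)) :=
    s23 (fun x y p1 p2 p3 => (y, p1, p2))
  have t8 : H r (fun w => (2 * p1 w - x w, 2 * p1 w - y w, 2 * p3 w - x w))
      = H r (fun w => (2 * p1 w - x w, 2 * p1 w - y w, 2 * p2 w - x w)) :=
    s23 (fun x y p1 p2 p3 => (2 * p1 - x, 2 * p1 - y, 2 * p2 - x))
  have t9 : H r (fun w => (x w, p1 w, 2 * p3 w - y w))
      = H r (fun w => (x w, p1 w, 2 * p2 w - y w)) :=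
    s23 (fun x y p1 p2 p3 => (x, p1, 2 * p2 - y))
  have t10 : H r (fun w => (x w, p2 w, 2 * p1 w - y w))
      = H r (fun w => (x w, p1 w, 2 * p2 w - y w)) :=
    s12 (fun x y p1 p2 p3 => (x, p1, 2 * p2 - y))
  have t11 : H r (fun w => (x w, p3 w, 2 * p1 w - y w))
      = H r (fun w => (x w, p1 w, 2 * p2 w - y w)) :=
    s132 (fun x y p1 p2 p3 => (x, p1, 2 * p2 - y))
  have t12 : H r (fun w => (y w, p1 w, 2 * p3 w - x w))
      = H r (fun w => (y w, p1 w, 2 * p2 w - x w)) :=
    s23 (fun x y p1 p2 p3 => (y, p1, 2 * p2 - x))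
  have t13 : H r (fun w => (y w, p2 w, 2 * p1 w - x w))
      = H r (fun w => (y w, p1 w, 2 * p2 w - x w)) :=
    s12 (fun x y p1 p2 p3 => (y, p1, 2 * p2 - x))
  have t14 : H r (fun w => (y w, p3 w, 2 * p1 w - x w))
      = H r (fun w => (y w, p1 w, 2 * p2 w - x w)) :=
    s132 (fun x y p1 p2 p3 => (y, p1, 2 * p2 - x))
  have t15 : H r (fun w => (x w, p2 w, p3 w, 2 * p1 w - y w))
      = H r (fun w => (x w, p1 w, p2 w, 2 * p3 w - y w)) :=
    s123 (fun x y p1 p2 p3 => (x, p1, p2, 2 * p3 - y))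
  have t16 : H r (fun w => (y w, p2 w, p3 w, 2 * p1 w - x w))
      = H r (fun w => (y w, p1 w, p2 w, 2 * p3 w - x w)) :=
    s123 (fun x y p1 p2 p3 => (y, p1, p2, 2 * p3 - x))
  linarith

end Pool.Agent.H38.SD
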