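import Mathlib
import Pool.Agent.H38.SD.Base

/-!
# The glued space: three crossing pairs over one pair of slices
-/

namespace Pool.Agent.H38.SD

open Finset Real Pool.Agent.H49.Ent
open scoped BigOperators

variable {Ω : Type} [Fintype Ω]

/-- two lines with the same position at time zero -/
noncomputable def q (p : Ω → ℝ) (f : Ω → ℚ) : Ω × Ω → ℝ := glue p p f f

/-- the pair of slices: first line at time one, second line at time minus one -/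
def M (f g : Ω → ℚ) (a : Ω × Ω) : ℚ × ℚ := (f a.1 + g a.1, f a.2 - g a.2)

/-- two crossing pairs over one pair of slices -/
noncomputable def r2 (p : Ω → ℝ) (f g : Ω → ℚ) : (Ω × Ω) × (Ω × Ω) → ℝ :=
  glue (q p f) (q p f) (M f g) (M f g)

/-- three crossing pairs over one pair of slices -/
noncomputable def r3 (p : Ω → ℝ) (f g : Ω → ℚ) : ((Ω × Ω) × (Ω × Ω)) × (Ω × Ω) → ℝ :=
  glue (r2 p f g) (q p f) (fun w => M f g w.1) (M f g)

section

variable {p : Ω → ℝ} {f g : Ω → ℚ}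

theorem q_nonneg (hp : ∀ w, 0 ≤ p w) (w : Ω × Ω) : 0 ≤ q p f w := glue_nonneg hp hp w

theorem q_pos (hp : ∀ w, 0 ≤ p w) {w : Ω × Ω} (h : 0 < q p f w) :
    0 < p w.1 ∧ 0 < p w.2 ∧ f w.1 = f w.2 := (glue_pos_iff hp hp w).mp h

theorem r2_nonneg (hp : ∀ w, 0 ≤ p w) (w : (Ω × Ω) × (Ω × Ω)) : 0 ≤ r2 p f g w :=
  glue_nonneg (q_nonneg hp) (q_nonneg hp) w

theorem r2_pos (hp : ∀ w, 0 ≤ p w) {w : (Ω × Ω) × (Ω × Ω)} (h : 0 < r2 p f g w) :
    0 < q p f w.1 ∧ 0 < q p f w.2 ∧ M f g w.1 = M f g w.2 :=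
  (glue_pos_iff (q_nonneg hp) (q_nonneg hp) w).mp h

theorem r3_nonneg (hp : ∀ w, 0 ≤ p w) (w : ((Ω × Ω) × (Ω × Ω)) × (Ω × Ω)) :
    0 ≤ r3 p f g w :=
  glue_nonneg (r2_nonneg hp) (q_nonneg hp) w

theorem r3_pos (hp : ∀ w, 0 ≤ p w) {w : ((Ω × Ω) × (Ω × Ω)) × (Ω × Ω)}
    (h : 0 < r3 p f g w) :
    0 < r2 p f g w.1 ∧ 0 < q p f w.2 ∧ M f g w.1.1 = M f g w.2 :=
  (glue_pos_iff (r2_nonneg hp) (q_nonneg hp) w).mp h

theorem law_r2 (hp : ∀ w, 0 ≤ p w) (z : ℚ × ℚ) :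
    law (r2 p f g) (fun w => M f g w.1) z = law (q p f) (M f g) z :=
  law_glue_fst (q_nonneg hp) (fun _ => rfl) (M f g) z

/-- exchange of the last two copies -/
def e23 : ((Ω × Ω) × (Ω × Ω)) × (Ω × Ω) ≃ ((Ω × Ω) × (Ω × Ω)) × (Ω × Ω) where
  toFun w := ((w.1.1, w.2), w.1.2)
  invFun w := ((w.1.1, w.2), w.1.2)
  left_inv _ := rfl
  right_inv _ := rfl

/-- exchange of the first two copies -/
def e12 : ((Ω × Ω) × (Ω × Ω)) × (Ω × Ω) ≃ ((Ω × Ω) × (Ω × Ω)) × (Ω × Ω) where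
  toFun w := ((w.1.2, w.1.1), w.2)
  invFun w := ((w.1.2, w.1.1), w.2)
  left_inv _ := rfl
  right_inv _ := rfl

theorem r3_e23 (hp : ∀ w, 0 ≤ p w) (w : ((Ω × Ω) × (Ω × Ω)) × (Ω × Ω)) :
    r3 p f g (e23 w) = r3 p f g w := by
  obtain ⟨⟨a, b⟩, c⟩ := w
  unfold r3 glue
  simp only [e23, Equiv.coe_fn_mk]
  rw [law_r2 hp]
  unfold r2 glue
  simp only []
  by_cases h1 : M f g a = M f g b <;> by_cases h2 : M f g a = M f g c
  · rw [if_pos h1, if_pos h2, if_pos h2, if_pos h1]; ring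
  · rw [if_pos h1, if_neg h2, if_neg h2]; ring
  · rw [if_neg h1, if_pos h2, if_neg h1]; ring
  · rw [if_neg h1, if_neg h2]

theorem r3_e12 (hp : ∀ w, 0 ≤ p w) (w : ((Ω × Ω) × (Ω × Ω)) × (Ω × Ω)) :
    r3 p f g (e12 w) = r3 p f g w := by
  obtain ⟨⟨a, b⟩, c⟩ := w
  unfold r3 glue
  simp only [e12, Equiv.coe_fn_mk]
  rw [law_r2 hp, law_r2 hp]
  unfold r2 glue
  simp only []
  by_cases h1 : M f g a = M f g b
  · simp only [h1, if_true]
    by_cases h2 : M f g b = M f g c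
    · rw [if_pos h2, if_pos h2]; ring
    · rw [if_neg h2, if_neg h2]
  · have h1' : ¬ M f g b = M f g a := fun h => h1 h.symm
    simp [h1, h1']

/-- exchange of the two lines of a crossing pair -/
theorem q_swap (w : Ω × Ω) : q p f (w.2, w.1) = q p f w := by
  unfold q glue
  simp only []
  by_cases h : f w.1 = f w.2
  · rw [if_pos h, if_pos h.symm, h]; ring
  · rw [if_neg h, if_neg (fun h' => h h'.symm)]

theorem H_q_swap {S : Type*} (X : Ω × Ω → S) :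
    H (q p f) (fun w => X (w.2, w.1)) = H (q p f) X :=
  H_equiv (p := q p f) (Equiv.prodComm Ω Ω) (fun w => q_swap w) X

end

end Pool.Agent.H38.SD
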