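import Mathlib
import Pool.Agent.H49.EntAK
import Pool.Agent.H38.SD.Space
import Pool.Agent.H38.SD.Cert

/-!
# The three slope inequality with total exponent `141/77`
-/

namespace Pool.Agent.H38.SD

open Finset Real Pool.Agent.H49.Ent
open scoped BigOperators

section inj

variable {Ω : Type} [Fintype Ω] {p : Ω → ℝ} {f g : Ω → ℚ}

/-- the value of the first line at time one -/
def vx (f g : Ω → ℚ) (w : ((Ω × Ω) × (Ω × Ω)) × (Ω × Ω)) : ℚ := f w.1.1.1 + g w.1.1.1
/-- the value of the second line at time minus one -/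
def vy (f g : Ω → ℚ) (w : ((Ω × Ω) × (Ω × Ω)) × (Ω × Ω)) : ℚ := f w.1.1.2 - g w.1.1.2
/-- first crossing point -/
def v1 (f : Ω → ℚ) (w : ((Ω × Ω) × (Ω × Ω)) × (Ω × Ω)) : ℚ := f w.1.1.1
/-- second crossing point -/
def v2 (f : Ω → ℚ) (w : ((Ω × Ω) × (Ω × Ω)) × (Ω × Ω)) : ℚ := f w.1.2.1
/-- third crossing point -/
def v3 (f : Ω → ℚ) (w : ((Ω × Ω) × (Ω × Ω)) × (Ω × Ω)) : ℚ := f w.2.1

/-- Everything known on the support. -/
theorem supp (hp : ∀ w, 0 ≤ p w) {w : ((Ω × Ω) × (Ω × Ω)) × (Ω × Ω)}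
    (h : 0 < r3 p f g w) :
    (0 < p w.1.1.1 ∧ 0 < p w.1.1.2 ∧ 0 < p w.1.2.1 ∧ 0 < p w.1.2.2 ∧ 0 < p w.2.1 ∧
      0 < p w.2.2) ∧
    (vx f g w = f w.1.1.1 + g w.1.1.1 ∧ vx f g w = f w.1.2.1 + g w.1.2.1 ∧
      vx f g w = f w.2.1 + g w.2.1) ∧
    (vy f g w = f w.1.1.2 - g w.1.1.2 ∧ vy f g w = f w.1.2.2 - g w.1.2.2 ∧
      vy f g w = f w.2.2 - g w.2.2) ∧
    (f w.1.1.2 = v1 f w ∧ f w.1.2.2 = v2 f w ∧ f w.2.2 = v3 f w) := by
  obtain ⟨h1, h2, h3⟩ := r3_pos hp h
  obtain ⟨h4, h5, h6⟩ := r2_pos hp h1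
  obtain ⟨a1, a2, a3⟩ := q_pos hp h4
  obtain ⟨b1, b2, b3⟩ := q_pos hp h5
  obtain ⟨c1, c2, c3⟩ := q_pos hp h2
  simp only [M, Prod.mk.injEq] at h3 h6
  refine ⟨⟨a1, a2, b1, b2, c1, c2⟩, ⟨rfl, h6.1, h3.1⟩, ⟨rfl, h6.2, h3.2⟩, a3.symm, b3.symm,
    c3.symm⟩

theorem main_inj (hp : ∀ w, 0 ≤ p w) (h1 : ∑ w, p w = 1)
    (hg : ∀ w w', 0 < p w → 0 < p w' → g w = g w' → w = w') :
    H p g ≤ 9 / 14 * (H p (fun w => f w + g w) + H p (fun w => f w - g w))
      + 6 / 11 * H p f := by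
  classical
  have hq : ∀ w, 0 ≤ q p f w := q_nonneg hp
  have hr2 : ∀ w, 0 ≤ r2 p f g w := r2_nonneg hp
  have hr : ∀ w, 0 ≤ r3 p f g w := r3_nonneg hp
  have hM2 : ∀ z, law (r2 p f g) (fun w => M f g w.1) z = law (q p f) (M f g) z := law_r2 hp
  have hsq : ∑ w, q p f w = 1 := (sum_glue hp (fun _ => rfl)).trans h1
  have hs2 : ∑ w, r2 p f g w = 1 := (sum_glue hq (fun _ => rfl)).trans hsq
  have hs3 : ∑ w, r3 p f g w = 1 := (sum_glue hr2 hM2).trans hs2
  -- marginals
  have m3 : ∀ {S : Type} (X : (Ω × Ω) × (Ω × Ω) → S),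
      H (r3 p f g) (fun w => X w.1) = H (r2 p f g) X := fun X => H_glue_fst hr2 hM2 X
  have m2 : ∀ {S : Type} (X : Ω × Ω → S),
      H (r2 p f g) (fun w => X w.1) = H (q p f) X := fun X => H_glue_fst hq (fun _ => rfl) X
  have m32 : ∀ {S : Type} (X : Ω × Ω → S),
      H (r3 p f g) (fun w => X w.1.1) = H (q p f) X := fun X => by
    rw [← m2 X]; exact m3 (fun w => X w.1)
  have m1 : ∀ {S : Type} (X : Ω → S),
      H (q p f) (fun w => X w.1) = H p X := fun X => H_glue_fst hp (fun _ => rfl) X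
  have m1' : ∀ {S : Type} (X : Ω → S),
      H (q p f) (fun w => X w.2) = H p X := fun X => H_glue_snd hp (fun _ => rfl) X
  -- the full line has the entropy of its direction
  have hid : H p (fun w => w) = H p g := by
    refine H_congr hp ?_ ?_
    · intro w w' hw hw' e; exact hg w w' hw hw' e
    · intro w w' _ _ e; exact congrArg g e
  -- the crossing pair
  have E1 : H (q p f) (fun w => (f w.1 + g w.1, f w.2 - g w.2, f w.1))
      = 2 * H p g - H p f := by
    have h := H_glue_pair (p₁ := p) (p₂ := p) (Z₁ := f) (Z₂ := f) hp hp (fun _ => rfl)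
      (X := fun w => w) (Y := fun w => w) (fun w w' _ _ e => congrArg f e)
      (fun w w' _ _ e => congrArg f e)
    have h' : H (q p f) (fun w => (f w.1 + g w.1, f w.2 - g w.2, f w.1))
        = H (q p f) (fun w => (w.1, w.2)) := by
      refine H_congr hq ?_ ?_
      · intro w w' _ _ e
        simp only [Prod.mk.injEq] at e
        obtain ⟨e1, e2⟩ := e
        simp only [e1, e2]
      · intro w w' hw hw' e
        obtain ⟨a1, a2, a3⟩ := q_pos hp hw
        obtain ⟨b1, b2, b3⟩ := q_pos hp hw'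
        simp only [Prod.mk.injEq] at e ⊢
        obtain ⟨e1, e2, e3⟩ := e
        exact ⟨hg _ _ a1 b1 (by linarith), hg _ _ a2 b2 (by linarith)⟩
    rw [h']
    unfold q
    rw [h, hid]
    ring
  -- totals of the glued spaces
  have D1 : Det (q p f) (fun w => (f w.1 + g w.1, f w.2 - g w.2, f w.1)) (M f g) := by
    intro w w' _ _ e
    simp only [Prod.mk.injEq] at e
    simp only [M, Prod.mk.injEq]
    exact ⟨e.1, e.2.1⟩
  have T2 : H (r2 p f g) (fun w => (f w.1.1 + g w.1.1, f w.1.2 - g w.1.2, f w.1.1, f w.2.1))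
      = 2 * H (q p f) (fun w => (f w.1 + g w.1, f w.2 - g w.2, f w.1))
        - H (q p f) (M f g) := by
    have h := H_glue_pair (p₁ := q p f) (p₂ := q p f) (Z₁ := M f g) (Z₂ := M f g) hq hq
      (fun _ => rfl) D1 D1
    have h' : H (r2 p f g) (fun w => (f w.1.1 + g w.1.1, f w.1.2 - g w.1.2, f w.1.1, f w.2.1))
        = H (r2 p f g) (fun w => ((f w.1.1 + g w.1.1, f w.1.2 - g w.1.2, f w.1.1),
          (f w.2.1 + g w.2.1, f w.2.2 - g w.2.2, f w.2.1))) := by
      refine H_congr hr2 ?_ ?_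
      · intro w w' _ _ e
        simp only [Prod.mk.injEq] at e ⊢
        exact ⟨e.1.1, e.1.2.1, e.1.2.2, e.2.2.2⟩
      · intro w w' hw hw' e
        obtain ⟨_, _, a3⟩ := r2_pos hp hw
        obtain ⟨_, _, b3⟩ := r2_pos hp hw'
        simp only [M, Prod.mk.injEq] at a3 b3
        simp only [Prod.mk.injEq] at e ⊢
        obtain ⟨e1, e2, e3, e4⟩ := e
        exact ⟨⟨e1, e2, e3⟩, by linarith [a3.1, b3.1], by linarith [a3.2, b3.2], e4⟩
    rw [h']
    unfold r2
    rw [h]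
    ring
  have D2 : Det (r2 p f g)
      (fun w => (f w.1.1 + g w.1.1, f w.1.2 - g w.1.2, f w.1.1, f w.2.1))
      (fun w => M f g w.1) := by
    intro w w' _ _ e
    simp only [Prod.mk.injEq] at e
    simp only [M, Prod.mk.injEq]
    exact ⟨e.1, e.2.1⟩
  have T3 : H (r3 p f g) (fun w => (vx f g w, vy f g w, v1 f w, v2 f w, v3 f w))
      = 3 * H (q p f) (fun w => (f w.1 + g w.1, f w.2 - g w.2, f w.1))
        - 2 * H (q p f) (M f g) := by
    have h := H_glue_pair (p₁ := r2 p f g) (p₂ := q p f) (Z₁ := fun w => M f g w.1)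
      (Z₂ := M f g) hr2 hq hM2 D2 D1
    have h' : H (r3 p f g) (fun w => (vx f g w, vy f g w, v1 f w, v2 f w, v3 f w))
        = H (r3 p f g) (fun w =>
          ((f w.1.1.1 + g w.1.1.1, f w.1.1.2 - g w.1.1.2, f w.1.1.1, f w.1.2.1),
          (f w.2.1 + g w.2.1, f w.2.2 - g w.2.2, f w.2.1))) := by
      refine H_congr hr ?_ ?_
      · intro w w' _ _ e
        simp only [Prod.mk.injEq] at e
        simp only [vx, vy, v1, v2, v3, Prod.mk.injEq]
        exact ⟨e.1.1, e.1.2.1, e.1.2.2.1, e.1.2.2.2, e.2.2.2⟩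
      · intro w w' hw hw' e
        obtain ⟨_, _, a3⟩ := r3_pos hp hw
        obtain ⟨_, _, b3⟩ := r3_pos hp hw'
        simp only [M, Prod.mk.injEq] at a3 b3
        simp only [vx, vy, v1, v2, v3, Prod.mk.injEq] at e
        simp only [Prod.mk.injEq]
        obtain ⟨e1, e2, e3, e4, e5⟩ := e
        exact ⟨⟨e1, e2, e3, e4⟩, by linarith [a3.1, b3.1], by linarith [a3.2, b3.2], e5⟩
    rw [h']
    unfold r3
    rw [h, T2, m2 (M f g)]
    ring
  -- closure facts
  have key : ∀ w w', 0 < r3 p f g w → 0 < r3 p f g w' →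
      (vx f g w - v1 f w = vx f g w' - v1 f w' → w.1.1.1 = w'.1.1.1) ∧
      (vx f g w - v2 f w = vx f g w' - v2 f w' → w.1.2.1 = w'.1.2.1) ∧
      (vx f g w - v3 f w = vx f g w' - v3 f w' → w.2.1 = w'.2.1) ∧
      (v1 f w - vy f g w = v1 f w' - vy f g w' → w.1.1.2 = w'.1.1.2) ∧
      (v2 f w - vy f g w = v2 f w' - vy f g w' → w.1.2.2 = w'.1.2.2) ∧
      (v3 f w - vy f g w = v3 f w' - vy f g w' → w.2.2 = w'.2.2) := by
    intro w w' hw hw'
    obtain ⟨⟨a1, a2, a3, a4, a5, a6⟩, ⟨x1, x2, x3⟩, ⟨y1, y2, y3⟩, z1, z2, z3⟩ := supp hp hw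
    obtain ⟨⟨a1', a2', a3', a4', a5', a6'⟩, ⟨x1', x2', x3'⟩, ⟨y1', y2', y3'⟩, z1', z2', z3'⟩ :=
      supp hp hw'
    refine ⟨fun e => hg _ _ a1 a1' ?_, fun e => hg _ _ a3 a3' ?_, fun e => hg _ _ a5 a5' ?_,
      fun e => hg _ _ a2 a2' ?_, fun e => hg _ _ a4 a4' ?_, fun e => hg _ _ a6 a6' ?_⟩
    · unfold v1 at e; linarith
    · unfold v2 at e; linarith
    · unfold v3 at e; linarith
    · linarith
    · linarith
    · linarith
  refine cert (r := r3 p f g) hr hs3 (vx f g) (vy f g) (v1 f) (v2 f) (v3 f) ?_ ?_ ?_ ?_ ?_ ?_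
    ?_ ?_ (H p g) (H p f) (H p (fun w => f w + g w)) (H p (fun w => f w - g w))
    ?_ ?_ ?_ ?_ ?_ ?_ ?_ ?_ ?_ ?_ ?_
  · intro w w' hw hw' e
    have h := (key w w' hw hw').1 e
    refine ⟨?_, ?_⟩
    · unfold vx; rw [h]
    · unfold v1; rw [h]
  · intro w w' hw hw' e
    have h := (key w w' hw hw').2.1 e
    have h2 : v2 f w = v2 f w' := by unfold v2; rw [h]
    exact ⟨by linarith, h2⟩
  · intro w w' hw hw' e
    have h := (key w w' hw hw').2.2.1 e
    have h2 : v3 f w = v3 f w' := by unfold v3; rw [h]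
    exact ⟨by linarith, h2⟩
  · intro w w' hw hw' e
    have h := (key w w' hw hw').2.2.2.1 e
    have h2 : vy f g w = vy f g w' := by unfold vy; rw [h]
    exact ⟨h2, by linarith⟩
  · intro w w' hw hw' e
    have h := (key w w' hw hw').2.2.2.2.1 e
    have a := (supp hp hw).2.2.2.2.1
    have b := (supp hp hw').2.2.2.2.1
    have h2 : v2 f w = v2 f w' := by rw [← a, ← b, h]
    exact ⟨by linarith, h2⟩
  · intro w w' hw hw' e
    have h := (key w w' hw hw').2.2.2.2.2 e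
    have a := (supp hp hw).2.2.2.2.2
    have b := (supp hp hw').2.2.2.2.2
    have h2 : v3 f w = v3 f w' := by rw [← a, ← b, h]
    exact ⟨by linarith, h2⟩
  · -- exchange of the first two copies
    intro S F
    rw [← H_equiv (p := r3 p f g) e12 (fun w => r3_e12 hp w)
      (fun w => F (vx f g w) (vy f g w) (v1 f w) (v2 f w) (v3 f w))]
    refine H_eq_on hr (fun w hw => ?_)
    obtain ⟨_, ⟨x1, x2, x3⟩, ⟨y1, y2, y3⟩, z1, z2, z3⟩ := supp hp hw
    have ex : vx f g (e12 w) = vx f g w := by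
      rw [x2]; rfl
    have ey : vy f g (e12 w) = vy f g w := by
      rw [y2]; rfl
    rw [ex, ey]
    rfl
  · -- exchange of the last two copies
    intro S F
    exact H_equiv (p := r3 p f g) e23 (fun w => r3_e23 hp w)
      (fun w => F (vx f g w) (vy f g w) (v1 f w) (v2 f w) (v3 f w))
  · rw [← E1]
    exact m32 (fun a => (f a.1 + g a.1, f a.2 - g a.2, f a.1))
  · have a := m3 (fun w => (f w.1.1 + g w.1.1, f w.1.2 - g w.1.2, f w.1.1, f w.2.1))
    have b := m32 (fun a => (f a.1 + g a.1, f a.2 - g a.2, f a.1))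
    have c := m32 (M f g)
    have a' : H (r3 p f g) (fun w => (vx f g w, vy f g w, v1 f w, v2 f w)) = _ := a
    have b' : H (r3 p f g) (fun w => (vx f g w, vy f g w, v1 f w)) = _ := b
    have c' : H (r3 p f g) (fun w => (vx f g w, vy f g w)) = _ := c
    rw [a', b', c', T2]
  · have b := m32 (fun a => (f a.1 + g a.1, f a.2 - g a.2, f a.1))
    have c := m32 (M f g)
    have b' : H (r3 p f g) (fun w => (vx f g w, vy f g w, v1 f w)) = _ := b
    have c' : H (r3 p f g) (fun w => (vx f g w, vy f g w)) = _ := c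
    rw [b', c', T3]
  · have c := m32 (M f g)
    have c' : H (r3 p f g) (fun w => (vx f g w, vy f g w)) = _ := c
    rw [c']
    have d := m32 (fun a => (2 * f a.1 - (f a.1 + g a.1), 2 * f a.1 - (f a.2 - g a.2)))
    have d' : H (r3 p f g)
        (fun w => (2 * v1 f w - vx f g w, 2 * v1 f w - vy f g w)) = _ := d
    rw [d', ← H_q_swap (p := p) (f := f) (M f g)]
    refine H_congr hq ?_ ?_
    · intro w w' hw hw' e
      obtain ⟨_, _, a3⟩ := q_pos hp hw
      obtain ⟨_, _, b3⟩ := q_pos hp hw'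
      simp only [M, Prod.mk.injEq] at e
      simp only [Prod.mk.injEq]
      exact ⟨by linarith [e.2], by linarith [e.1]⟩
    · intro w w' hw hw' e
      obtain ⟨_, _, a3⟩ := q_pos hp hw
      obtain ⟨_, _, b3⟩ := q_pos hp hw'
      simp only [Prod.mk.injEq] at e
      simp only [M, Prod.mk.injEq]
      exact ⟨by linarith [e.2], by linarith [e.1]⟩
  · have d := m32 (fun a => (f a.1 + g a.1, f a.1))
    have d' : H (r3 p f g) (fun w => (vx f g w, v1 f w)) = _ := d
    rw [d', m1 (fun w => (f w + g w, f w)), ← hid]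
    refine H_congr hp ?_ ?_
    · intro w w' _ _ e
      simp only [e]
    · intro w w' hw hw' e
      simp only [Prod.mk.injEq] at e
      exact hg _ _ hw hw' (by linarith [e.1, e.2])
  · have d := m32 (fun a => (f a.2 - g a.2, f a.1))
    have d' : H (r3 p f g) (fun w => (vy f g w, v1 f w)) = _ := d
    have d2 : H (q p f) (fun a => (f a.2 - g a.2, f a.1))
        = H (q p f) (fun a => (f a.2 - g a.2, f a.2)) := by
      refine H_eq_on hq (fun a ha => ?_)
      rw [(q_pos hp ha).2.2]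
    rw [d', d2, m1' (fun w => (f w - g w, f w)), ← hid]
    refine H_congr hp ?_ ?_
    · intro w w' _ _ e
      simp only [e]
    · intro w w' hw hw' e
      simp only [Prod.mk.injEq] at e
      exact hg _ _ hw hw' (by linarith [e.1, e.2])
  · exact (m32 (fun a => f a.1 + g a.1)).trans (m1 (fun w => f w + g w))
  · have d := m32 (fun a => 2 * f a.1 - (f a.2 - g a.2))
    have d' : H (r3 p f g) (fun w => 2 * v1 f w - vy f g w) = _ := d
    rw [d', ← m1' (fun w => f w + g w)]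
    refine H_eq_on hq (fun a ha => ?_)
    have := (q_pos hp ha).2.2
    linarith
  · exact (m32 (fun a => f a.2 - g a.2)).trans (m1' (fun w => f w - g w))
  · have d := m32 (fun a => 2 * f a.1 - (f a.1 + g a.1))
    have d' : H (r3 p f g) (fun w => 2 * v1 f w - vx f g w) = _ := d
    rw [d', ← m1 (fun w => f w - g w)]
    refine H_eq_on hq (fun a _ => ?_)
    ring
  · exact (m32 (fun a => f a.1)).trans (m1 (fun w => f w))

end inj

end Pool.Agent.H38.SD
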