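import Mathlib
import Pool.Agent.H38.SD.Main

/-!
# From laws to finite sets
-/

namespace Pool.Agent.H38.SD

open Finset Real Pool.Agent.H49.Ent
open scoped BigOperators

/-- weights of the three slope inequality -/
noncomputable def wt (t : ℚ) : ℝ := if t = 0 then 6 / 11 else 9 / 14

theorem wt_nonneg (t : ℚ) : 0 ≤ wt t := by
  unfold wt; split_ifs <;> norm_num

theorem sum_wt (F : ℚ → ℝ) :
    ∑ t ∈ ({-1, 0, 1} : Finset ℚ), wt t * F t
      = 9 / 14 * (F 1 + F (-1)) + 6 / 11 * F 0 := by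
  rw [Finset.sum_insert (by norm_num), Finset.sum_pair (by norm_num)]
  have a : wt (-1) = 9 / 14 := by unfold wt; rw [if_neg (by norm_num)]
  have b : wt 0 = 6 / 11 := by unfold wt; rw [if_pos rfl]
  have c : wt 1 = 9 / 14 := by unfold wt; rw [if_neg (by norm_num)]
  rw [a, b, c]; ring

/-- The three slope entropy inequality for all finite laws. -/
theorem akw : AKW ({-1, 0, 1} : Finset ℚ) wt := by
  refine AKW_of_injective (fun t _ => wt_nonneg t) ?_
  intro Ω _ p f g hp h1 hg
  rw [sum_wt (fun t => H p (fun ω => f ω + t * g ω))]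
  have h := main_inj (p := p) (f := f) (g := g) hp h1 hg
  have e1 : (fun ω => f ω + (1 : ℚ) * g ω) = fun ω => f ω + g ω := by
    funext ω; ring
  have e2 : (fun ω => f ω + (-1 : ℚ) * g ω) = fun ω => f ω - g ω := by
    funext ω; ring
  have e3 : (fun ω => f ω + (0 : ℚ) * g ω) = f := by
    funext ω; ring
  simp only [e1, e2, e3]
  exact h

/-- Log form for finite sets, with different bounds for the different slices. -/
theorem log_card_le {T : Finset ℚ} {w : ℚ → ℝ} (hw : ∀ t ∈ T, 0 ≤ w t)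
    (h : AKW T w) {A : Type} [Fintype A] [Nonempty A] (f g : A → ℚ) :
    Real.log ((univ.image g).card : ℝ)
      ≤ ∑ t ∈ T, w t * Real.log ((univ.image (fun a => f a + t * g a)).card : ℝ) := by
  classical
  obtain ⟨B, hB⟩ : ∃ B : Finset ℚ, B = univ.image g := ⟨_, rfl⟩
  rw [← hB]
  have hsec : ∀ x : B, ∃ a, g a = x.1 := by
    rintro ⟨x, hx⟩
    rw [hB] at hx
    obtain ⟨a, _, ha⟩ := Finset.mem_image.mp hx
    exact ⟨a, ha⟩
  choose σ hσ using hsec
  have hBne : Nonempty B :=
    ⟨⟨g (Classical.arbitrary A), hB ▸ Finset.mem_image_of_mem g (Finset.mem_univ _)⟩⟩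
  have hinj : Function.Injective (fun x => g (σ x)) := by
    intro x y hxy
    simp only [hσ] at hxy
    exact Subtype.ext hxy
  have hc : (0 : ℝ) < Fintype.card B := by
    exact_mod_cast Fintype.card_pos
  have hsum : ∑ _x : B, (Fintype.card B : ℝ)⁻¹ = 1 := by
    rw [Finset.sum_const, Finset.card_univ, nsmul_eq_mul, mul_inv_cancel₀ hc.ne']
  have h1 := h B (fun _ => (Fintype.card B : ℝ)⁻¹)
    (fun x => f (σ x)) (fun x => g (σ x)) (fun _ => by positivity) hsum
  rw [H_uniform hinj] at h1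
  have hcard : (Fintype.card B : ℝ) = B.card := by
    rw [Fintype.card_coe]
  rw [hcard] at h1
  refine h1.trans (Finset.sum_le_sum (fun t ht => ?_))
  refine mul_le_mul_of_nonneg_left ?_ (hw t ht)
  have h3 := H_le_log_card (p := fun _ : B => (Fintype.card B : ℝ)⁻¹)
    (fun _ => by positivity) hsum
    (fun x => f (σ x) + t * g (σ x)) (univ.image (fun a => f a + t * g a))
    (fun x _ => Finset.mem_image_of_mem (fun a => f a + t * g a) (Finset.mem_univ _))
  rw [hcard] at h3
  exact h3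

/-- **Three slopes.**  For every finite set `A` of integer points,
`|π_{-1}(A)| ≤ (|π_0(A)| |π_∞(A)|)^(9/14) |π_1(A)|^(6/11)`. -/
theorem three_slopes (A : Finset (ℤ × ℤ)) :
    ((A.image (fun p : ℤ × ℤ => p.1 - p.2)).card : ℝ) ≤
      (((A.image (fun p : ℤ × ℤ => p.1)).card : ℝ) *
        ((A.image (fun p : ℤ × ℤ => p.2)).card : ℝ)) ^ (9 / 14 : ℝ) *
      ((A.image (fun p : ℤ × ℤ => p.1 + p.2)).card : ℝ) ^ (6 / 11 : ℝ) := by
  classical
  rcases A.eq_empty_or_nonempty with rfl | hA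
  · simp only [Finset.image_empty, Finset.card_empty, Nat.cast_zero]
    positivity
  have hne : Nonempty A := hA.to_subtype
  have h := log_card_le (A := A) (fun t _ => wt_nonneg t) akw
    (fun a => ((a.1.1 : ℚ) + a.1.2) / 2) (fun a => ((a.1.1 : ℚ) - a.1.2) / 2)
  rw [sum_wt (fun t => Real.log ((univ.image (fun a : A =>
    ((a.1.1 : ℚ) + a.1.2) / 2 + t * (((a.1.1 : ℚ) - a.1.2) / 2))).card : ℝ))] at h
  -- cardinalities of images
  have key : ∀ (φ : ℤ × ℤ → ℤ) (ψ : A → ℚ) (m : ℚ → ℚ), Function.Injective m →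
      (∀ a : A, ψ a = m ((φ a.1 : ℤ) : ℚ)) →
      (univ.image ψ).card = (A.image φ).card := by
    intro φ ψ m hm hψ
    have : univ.image ψ = (A.image φ).image (fun z : ℤ => m (z : ℚ)) := by
      ext q
      simp only [Finset.mem_image, Finset.mem_univ, true_and]
      constructor
      · rintro ⟨a, rfl⟩
        exact ⟨φ a.1, ⟨a.1, a.2, rfl⟩, (hψ a).symm⟩
      · rintro ⟨z, ⟨b, hb, rfl⟩, rfl⟩
        exact ⟨⟨b, hb⟩, hψ ⟨b, hb⟩⟩
    have hinj : Function.Injective (fun z : ℤ => m (z : ℚ)) := by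
      intro a b hab
      exact_mod_cast hm hab
    rw [this, Finset.card_image_of_injective _ hinj]
  have hm2 : Function.Injective (fun x : ℚ => x / 2) := fun a b hab => by
    simp only [] at hab
    linarith
  have k0 : (univ.image (fun a : A => ((a.1.1 : ℚ) - a.1.2) / 2)).card
      = (A.image (fun p : ℤ × ℤ => p.1 - p.2)).card :=
    key (fun p => p.1 - p.2) _ (fun x => x / 2) hm2 (fun a => by push_cast; ring)
  have k1 : (univ.image (fun a : A =>
      ((a.1.1 : ℚ) + a.1.2) / 2 + 1 * (((a.1.1 : ℚ) - a.1.2) / 2))).card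
      = (A.image (fun p : ℤ × ℤ => p.1)).card :=
    key (fun p => p.1) _ (fun x => x) (fun _ _ h => h) (fun a => by ring)
  have k2 : (univ.image (fun a : A =>
      ((a.1.1 : ℚ) + a.1.2) / 2 + (-1) * (((a.1.1 : ℚ) - a.1.2) / 2))).card
      = (A.image (fun p : ℤ × ℤ => p.2)).card :=
    key (fun p => p.2) _ (fun x => x) (fun _ _ h => h) (fun a => by ring)
  have k3 : (univ.image (fun a : A =>
      ((a.1.1 : ℚ) + a.1.2) / 2 + 0 * (((a.1.1 : ℚ) - a.1.2) / 2))).card
      = (A.image (fun p : ℤ × ℤ => p.1 + p.2)).card :=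
    key (fun p => p.1 + p.2) _ (fun x => x / 2) hm2 (fun a => by push_cast; ring)
  rw [k0, k1, k2, k3] at h
  have pos : ∀ φ : ℤ × ℤ → ℤ, (0 : ℝ) < ((A.image φ).card : ℝ) := by
    intro φ
    exact_mod_cast Finset.card_pos.mpr (hA.image φ)
  have p0 := pos (fun p => p.1 - p.2)
  have p1 := pos (fun p => p.1)
  have p2 := pos (fun p => p.2)
  have p3 := pos (fun p => p.1 + p.2)
  rw [← Real.log_le_log_iff p0 (by positivity), Real.log_mul (by positivity) (by positivity),
    Real.log_rpow (by positivity), Real.log_rpow p3, Real.log_mul p1.ne' p2.ne']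
  exact h

/-- The same with the largest of the three projections: exponent `141/77`. -/
theorem three_slopes_max (A : Finset (ℤ × ℤ)) :
    ((A.image (fun p : ℤ × ℤ => p.1 - p.2)).card : ℝ) ≤
      (max (max ((A.image (fun p : ℤ × ℤ => p.1)).card : ℝ)
        ((A.image (fun p : ℤ × ℤ => p.2)).card : ℝ))
        ((A.image (fun p : ℤ × ℤ => p.1 + p.2)).card : ℝ)) ^ (141 / 77 : ℝ) := by
  refine (three_slopes A).trans ?_
  set N := max (max ((A.image (fun p : ℤ × ℤ => p.1)).card : ℝ)
        ((A.image (fun p : ℤ × ℤ => p.2)).card : ℝ))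
        ((A.image (fun p : ℤ × ℤ => p.1 + p.2)).card : ℝ) with hN
  have h1 : ((A.image (fun p : ℤ × ℤ => p.1)).card : ℝ) ≤ N :=
    (le_max_left _ _).trans (le_max_left _ _)
  have h2 : ((A.image (fun p : ℤ × ℤ => p.2)).card : ℝ) ≤ N :=
    (le_max_right _ _).trans (le_max_left _ _)
  have h3 : ((A.image (fun p : ℤ × ℤ => p.1 + p.2)).card : ℝ) ≤ N := le_max_right _ _
  have h0 : 0 ≤ N := (Nat.cast_nonneg _).trans h1
  rcases eq_or_lt_of_le h0 with hz | hpos
  · have e1 : ((A.image (fun p : ℤ × ℤ => p.1)).card : ℝ) = 0 :=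
      le_antisymm (hz ▸ h1) (Nat.cast_nonneg _)
    rw [e1, zero_mul, Real.zero_rpow (by norm_num), zero_mul]
    exact Real.rpow_nonneg h0 _
  · calc (((A.image (fun p : ℤ × ℤ => p.1)).card : ℝ) *
          ((A.image (fun p : ℤ × ℤ => p.2)).card : ℝ)) ^ (9 / 14 : ℝ) *
          ((A.image (fun p : ℤ × ℤ => p.1 + p.2)).card : ℝ) ^ (6 / 11 : ℝ)
        ≤ (N * N) ^ (9 / 14 : ℝ) * N ^ (6 / 11 : ℝ) := by
          refine mul_le_mul (Real.rpow_le_rpow (by positivity)
            (mul_le_mul h1 h2 (Nat.cast_nonneg _) h0) (by norm_num))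
            (Real.rpow_le_rpow (Nat.cast_nonneg _) h3 (by norm_num))
            (Real.rpow_nonneg (Nat.cast_nonneg _) _)
            (Real.rpow_nonneg (mul_nonneg h0 h0) _)
      _ = N ^ (141 / 77 : ℝ) := by
          rw [← pow_two, ← Real.rpow_natCast N 2, ← Real.rpow_mul hpos.le,
            ← Real.rpow_add hpos]
          norm_num

end Pool.Agent.H38.SD
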